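import Mathlib

set_option autoImplicit false

open Filter Set Metric
open scoped Topology ContDiff

namespace Pool.Agent.H.MP_420470_an

noncomputable def c : ℕ → ℝ
  | 0 => 1
  | k + 1 => -10 * c k / (10 ^ (k + 1) - 1)

lemma den (k : ℕ) : (9 : ℝ) ≤ 10 ^ (k + 1) - 1 := by
  have : (1 : ℝ) ≤ 10 ^ k := one_le_pow₀ (by norm_num)
  rw [pow_succ]; linarith

lemma c_abs (k : ℕ) : |c (k + 1)| = 10 / (10 ^ (k + 1) - 1) * |c k| := by
  have := den k
  rw [c, abs_div, abs_mul, abs_of_pos (by linarith : (0 : ℝ) < 10 ^ (k + 1) - 1)]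
  norm_num
  ring

lemma c_sum (s : ℝ) : Summable fun k => c k * s ^ k := by
  refine summable_of_ratio_norm_eventually_le (r := 1 / 2) (by norm_num) ?_
  filter_upwards [(tendsto_pow_atTop_atTop_of_one_lt (by norm_num : (1 : ℝ) < 10)).eventually_ge_atTop
    (20 * |s|)] with k hk
  have := den k
  rw [norm_mul, norm_mul, Real.norm_eq_abs, c_abs, norm_pow, norm_pow, pow_succ ‖s‖,
    Real.norm_eq_abs, Real.norm_eq_abs]
  have h : 10 / (10 ^ (k + 1) - 1) * |s| ≤ 1 / 2 := by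
    rw [div_mul_eq_mul_div, div_le_iff₀ (by linarith), pow_succ] at *
    nlinarith
  calc _ = 10 / (10 ^ (k + 1) - 1) * |s| * (|c k| * |s| ^ k) := by ring
    _ ≤ _ := by gcongr

lemma c_fun (s : ℝ) : ∑' k, c k * (10 * s) ^ k = (1 - 10 * s) * ∑' k, c k * s ^ k := by
  have h := ((c_sum (10 * s)).hasSum.sub (c_sum s).hasSum)
  have h2 : HasSum (fun k => c k * (10 * s) ^ k - c k * s ^ k) (-(10 * s) * ∑' k, c k * s ^ k) := by
    rw [← hasSum_nat_add_iff' 1]
    simp only [Finset.range_one, Finset.sum_singleton, pow_zero, sub_self, sub_zero]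
    rw [show (fun n => c (n + 1) * (10 * s) ^ (n + 1) - c (n + 1) * s ^ (n + 1)) =
      fun k => -(10 * s) * (c k * s ^ k) from funext fun k => ?_]
    · exact (c_sum s).hasSum.mul_left (-(10 * s))
    have : (10 : ℝ) ^ (k + 1) - 1 ≠ 0 := by linarith [den k]
    rw [c, mul_pow]
    field_simp
    ring
  linarith [h.unique h2]

lemma c_zero (m : ℕ) : ∑' k, c k * ((10 : ℝ) ^ m) ^ k = 0 := by
  induction m with
  | zero => simpa using c_fun 10⁻¹
  | succ m ih => rw [pow_succ', c_fun, ih, mul_zero]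

lemma c_le (k : ℕ) : |c (k + 1)| ≤ 2 := by
  induction k with
  | zero => rw [c_abs]; norm_num [c]
  | succ k ih =>
    rw [c_abs]
    have := den k
    have h : (10 : ℝ) / (10 ^ (k + 1 + 1) - 1) ≤ 1 := by
      rw [div_le_one (by linarith [den (k + 1)]), pow_succ]
      linarith
    nlinarith [abs_nonneg (c (k + 1))]

lemma c_ne : ∑' k, c k * (1 + (10 : ℝ) ^ k)⁻¹ ≠ 0 := by
  have b : ∀ k, ‖c (k + 1) * (1 + (10 : ℝ) ^ (k + 1))⁻¹‖ ≤ 5⁻¹ * (10⁻¹) ^ k := fun k => by
    rw [norm_mul, Real.norm_eq_abs, Real.norm_of_nonneg (by positivity)]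
    calc _ ≤ 2 * ((10 : ℝ) ^ (k + 1))⁻¹ := by
          gcongr
          · exact c_le k
          · linarith
      _ = _ := by rw [pow_succ, inv_pow]; field_simp; norm_num
  have g := (hasSum_geometric_of_lt_one (r := (10 : ℝ)⁻¹) (by norm_num) (by norm_num)).mul_left 5⁻¹
  have h := tsum_of_norm_bounded g b
  rw [((summable_nat_add_iff 1).1 (Summable.of_norm_bounded g.summable b)).tsum_eq_zero_add]
  rw [Real.norm_eq_abs, abs_le] at h
  norm_num [c] at h ⊢
  linarith [h.1]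

lemma exG : ∃ G : ℂ → ℂ, ContDiff ℝ ∞ G ∧ (∀ u, 1 ≤ ‖1 + u‖ → G u = (1 + u)⁻¹) ∧
    ∀ k : ℕ, ∃ C, ∀ u, ‖iteratedFDeriv ℝ k G u‖ ≤ C := by
  let b : ContDiffBump (0 : ℂ) := ⟨1 / 2, 1, by norm_num, by norm_num⟩
  let G : ℂ → ℂ := fun u => ((‖u‖ ^ 2 + b u)⁻¹ : ℝ) • (starRingEnd ℂ) u
  have hG : ContDiff ℝ ∞ G := by
    refine ContDiff.smul (ContDiff.inv ((contDiff_norm_sq ℝ).add b.contDiff) fun u => ?_)
      Complex.conjCLE.contDiff
    by_cases hu : u = 0
    · simp [hu, b.one_of_mem_closedBall (mem_closedBall_self b.rIn_pos.le)]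
    · exact (add_pos_of_pos_of_nonneg (by positivity) b.nonneg).ne'
  have e : ∀ u : ℂ, 1 ≤ ‖u‖ → G u = u⁻¹ := fun u hu => by
    simp only [G, b.zero_of_le_dist (by simpa using hu), add_zero, Complex.inv_def,
      Complex.real_smul, Complex.normSq_eq_norm_sq, mul_comm]
  refine ⟨fun u => G (1 + u), hG.comp (by fun_prop), fun u hu => e _ hu, fun k => ?_⟩
  obtain ⟨C, hC⟩ := (isCompact_closedBall (0 : ℂ) 1).exists_bound_of_continuousOn
    (hG.continuous_iteratedFDeriv (m := k) (by exact_mod_cast le_top)).continuousOn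
  refine ⟨max C k.factorial, fun u => ?_⟩
  rw [iteratedFDeriv_comp_add_left]
  generalize 1 + u = u
  by_cases hu : ‖u‖ ≤ 1
  · exact (hC u (by simpa using hu)).trans (le_max_left _ _)
  push Not at hu
  refine le_trans ?_ (le_max_right _ _)
  have h0 : u ≠ 0 := fun h => by rw [h, norm_zero] at hu; linarith
  have : G =ᶠ[𝓝 u] Inv.inv :=
    ((isOpen_lt continuous_const continuous_norm).eventually_mem hu).mono fun v hv => e v (le_of_lt hv)
  rw [(this.iteratedFDeriv ℝ k).eq_of_nhds,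
    ← (contDiffAt_inv ℂ h0 (n := k)).restrictScalars_iteratedFDeriv, Function.comp,
    ContinuousMultilinearMap.norm_restrictScalars, norm_iteratedFDeriv_eq_norm_iteratedDeriv,
    iteratedDeriv_eq_iterate, iter_deriv_inv]
  simp only [norm_mul, norm_pow, norm_neg, norm_one, one_pow, one_mul, Complex.norm_natCast,
    norm_zpow]
  exact mul_le_of_le_one_right (by positivity) (zpow_le_one_of_nonpos₀ hu.le (by omega))

lemma exFlat : ∃ ψ : ℂ → ℂ, ContDiff ℝ ∞ ψ ∧ DifferentiableOn ℂ ψ {z | 0 < z.re} ∧ ψ 1 ≠ 0 ∧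
    (∃ C, ∀ z, ‖ψ z‖ ≤ C) ∧ ∀ m, iteratedFDeriv ℝ m ψ 0 = 0 := by
  obtain ⟨G, hG, e, hC⟩ := exG
  choose C hC using hC
  let f : ℕ → ℂ → ℂ := fun i z => c i • G ((10 : ℝ) ^ i • z)
  have hf : ∀ i, ContDiff ℝ ∞ (f i) := fun i => (hG.comp (by fun_prop)).const_smul _
  have d : ∀ k i z, iteratedFDeriv ℝ k (f i) z =
      (c i * ((10 : ℝ) ^ k) ^ i) • iteratedFDeriv ℝ k G ((10 : ℝ) ^ i • z) := fun k i z => by
    have h1 : ContDiff ℝ k G := hG.of_le (by exact_mod_cast le_top)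
    rw [iteratedFDeriv_const_smul_apply' (f := fun z => G ((10 : ℝ) ^ i • z))
      (h1.comp (by fun_prop)).contDiffAt, iteratedFDeriv_comp_const_smul _ h1, smul_smul,
      ← pow_mul, ← pow_mul, mul_comm i]
  have hv : ∀ k : ℕ, Summable fun i => ‖c i * ((10 : ℝ) ^ k) ^ i‖ * C k := fun k =>
    (c_sum _).norm.mul_right _
  have hb : ∀ (k i : ℕ) z, ‖iteratedFDeriv ℝ k (f i) z‖ ≤ ‖c i * ((10 : ℝ) ^ k) ^ i‖ * C k :=
    fun k i z => by rw [d, norm_smul]; gcongr; exact hC _ _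
  have e2 : ∀ i (z : ℂ), 0 < z.re → 1 ≤ ‖1 + (10 : ℝ) ^ i • z‖ := fun i z hz => by
    refine le_trans ?_ (Complex.re_le_norm _)
    rw [Complex.add_re, Complex.smul_re, Complex.one_re, smul_eq_mul]
    exact le_add_of_nonneg_right (by positivity)
  refine ⟨fun z => ∑' i, f i z, contDiff_tsum (N := ⊤) hf (fun k _ => hv k) fun k i z _ => hb k i z,
    ?_, ?_, ⟨_, fun z => tsum_of_norm_bounded (hv 0).hasSum fun i => ?_⟩, fun m => ?_⟩
  · refine Complex.differentiableOn_tsum_of_summable_norm (hv 0) (fun i => ?_)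
      (isOpen_lt continuous_const Complex.continuous_re) fun i z _ => by simpa using hb 0 i z
    refine DifferentiableOn.congr (f := fun z => (c i : ℂ) * (1 + (10 : ℂ) ^ i * z)⁻¹)
      (fun z hz => ?_) fun z hz => by simp only [f, e _ (e2 i z hz)]; simp
    have h : 1 + (10 : ℂ) ^ i * z ≠ 0 := fun h => by
      have := e2 i z hz
      simp [h] at this
      linarith
    exact DifferentiableAt.differentiableWithinAt (by fun_prop (disch := assumption))
  · have : ∀ i, f i 1 = ((c i * (1 + (10 : ℝ) ^ i)⁻¹ : ℝ) : ℂ) := fun i => by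
      simp only [f, e _ (e2 i 1 (by simp))]
      simp
    simp only [this, ← Complex.ofReal_tsum]
    exact_mod_cast c_ne
  · simpa using hb 0 i z
  · rw [iteratedFDeriv_tsum_apply (N := ⊤) hf (fun k _ => hv k) (fun k i z _ => hb k i z) le_top]
    simp only [d, smul_zero]
    rw [(c_sum _).tsum_smul_const, c_zero, zero_smul]

section dom
variable {N : ℕ}

noncomputable def B (N : ℕ) : (Fin N → ℂ) →L[ℝ] (Fin N → ℂ) →L[ℝ] ℝ :=
  ∑ i : Fin N, (innerSL ℝ (E := ℂ)).bilinearComp (ContinuousLinearMap.proj i)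
    (ContinuousLinearMap.proj i)

lemma B_self (v : Fin N → ℂ) : B N v v = ∑ i, ‖v i‖ ^ 2 := by
  simp [B]

lemma B_ge (v : Fin N → ℂ) : ‖v‖ ^ 2 ≤ B N v v := by
  rw [B_self, ← Real.le_sqrt (norm_nonneg _) (by positivity)]
  refine (pi_norm_le_iff_of_nonneg (Real.sqrt_nonneg _)).2 fun i => Real.le_sqrt_of_sq_le ?_
  exact Finset.single_le_sum (f := fun i => ‖v i‖ ^ 2) (fun _ _ => by positivity) (Finset.mem_univ i)

lemma two_le : (1 : WithTop ℕ∞) + 1 ≤ ∞ := by
  exact WithTop.coe_le_coe.2 (le_top : ((1 : ℕ∞) + 1) ≤ ⊤)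

lemma spsc (a : Fin N → ℂ) {r : (Fin N → ℂ) → ℝ} (hr : ContDiff ℝ ∞ r) (h0 : ∀ z, 0 ≤ r z)
    (h1 : ∀ z, r z ≤ 1) (h2 : ∀ z ∈ closedBall a 2, ‖fderiv ℝ r z‖ ≤ 1)
    (h3 : ∀ z ∈ closedBall a 2, ‖fderiv ℝ (fderiv ℝ r) z‖ ≤ 1) (Ω : Set (Fin N → ℂ))
    (hΩ : Ω = {z | B N (z - a) (z - a) - 1 - r z < 0}) :
    IsOpen Ω ∧ IsConnected Ω ∧ Bornology.IsBounded Ω ∧
    ∃ ρ : (Fin N → ℂ) → ℝ, ContDiff ℝ ∞ ρ ∧ Ω = {z | ρ z < 0} ∧
      ∀ z ∈ frontier Ω, fderiv ℝ ρ z ≠ 0 ∧
        ∀ v : Fin N → ℂ, v ≠ 0 → fderiv ℝ ρ z v = 0 →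
          fderiv ℝ ρ z (Complex.I • v) = 0 →
          0 < fderiv ℝ (fderiv ℝ ρ) z v v
              + fderiv ℝ (fderiv ℝ ρ) z (Complex.I • v) (Complex.I • v) := by
  have hρ : ContDiff ℝ ∞ fun z => B N (z - a) (z - a) - 1 - r z := by fun_prop
  have ho : IsOpen Ω := hΩ ▸ isOpen_lt hρ.continuous continuous_const
  have hd := hr.differentiable (by simp)
  have hb : ∀ z, B N (z - a) (z - a) - 1 - r z ≤ 0 → z ∈ closedBall a 2 := fun z hz => by
    rw [mem_closedBall, dist_eq_norm]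
    nlinarith [B_ge (z - a), h1 z, norm_nonneg (z - a)]
  refine ⟨ho, (StarConvex.isPathConnected (a := a) ?_ ?_).isConnected,
    isBounded_closedBall.subset fun z hz => hb z (by rw [hΩ] at hz; exact le_of_lt hz),
    _, hρ, hΩ, fun z hz => ?_⟩
  · rw [starConvex_iff_segment_subset]
    intro z hz w hw
    rw [segment_eq_image'] at hw
    obtain ⟨s, ⟨s0, s1⟩, rfl⟩ := hw
    rw [hΩ] at hz ⊢
    have hz' : B N (z - a) (z - a) - 1 - r z < 0 := hz
    have m := hb z hz'.le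
    have m2 : a + s • (z - a) ∈ closedBall a 2 :=
      (convex_closedBall a 2).add_smul_sub_mem (mem_closedBall_self zero_le_two) m ⟨s0, s1⟩
    have l := (convex_closedBall a 2).norm_image_sub_le_of_norm_fderiv_le (fun z _ => hd z) h2 m2 m
    rw [show z - (a + s • (z - a)) = (1 - s) • (z - a) by module, norm_smul,
      Real.norm_of_nonneg (sub_nonneg.2 s1), Real.norm_eq_abs] at l
    simp only [mem_ofPred_eq, add_sub_cancel_left, map_smul, smul_apply,
      smul_eq_mul]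
    have g := B_ge (z - a)
    have l2 := (le_abs_self _).trans l
    have p := h0 (a + s • (z - a))
    generalize B N (z - a) (z - a) = Q at *
    generalize ‖z - a‖ = n at *
    by_cases hq : Q < 1
    · nlinarith [mul_nonneg s0 s0, mul_le_one₀ s1 s0 s1, sq_nonneg n]
    · have : n ≤ Q := by nlinarith
      nlinarith [mul_nonneg (sub_nonneg.2 s1) (sub_nonneg.2 this),
        mul_nonneg (sub_nonneg.2 s1) (mul_nonneg s0 (by linarith : 0 ≤ Q))]
  · rw [hΩ]
    simp only [mem_ofPred_eq, sub_self, map_zero]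
    linarith [h0 a]
  have e1 : fderiv ℝ (fun z => B N (z - a) (z - a) - 1 - r z) =
      fun z => (B N + (B N).flip) (z - a) - fderiv ℝ r z := by
    funext z
    refine HasFDerivAt.fderiv (HasFDerivAt.sub (HasFDerivAt.sub_const _ ?_) (hd z).hasFDerivAt)
    have := (B N).hasFDerivAt_of_bilinear ((hasFDerivAt_id z).sub_const a)
      ((hasFDerivAt_id z).sub_const a)
    refine this.congr_fderiv (ContinuousLinearMap.ext fun v => ?_)
    simp
  have e2 : fderiv ℝ (fderiv ℝ fun z => B N (z - a) (z - a) - 1 - r z) z =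
      B N + (B N).flip - fderiv ℝ (fderiv ℝ r) z := by
    rw [e1]
    refine HasFDerivAt.fderiv (HasFDerivAt.sub ?_
      (((hr.fderiv_right (m := 1) two_le).differentiable (by simp)) z).hasFDerivAt)
    exact ((B N + (B N).flip).hasFDerivAt.comp z ((hasFDerivAt_id z).sub_const a)).congr_fderiv
      (ContinuousLinearMap.comp_id _)
  have z1 : B N (z - a) (z - a) - 1 - r z ≤ 0 :=
    closure_minimal (t := {z | B N (z - a) (z - a) - 1 - r z ≤ 0})
      (fun w hw => by rw [hΩ] at hw; exact le_of_lt (mem_ofPred_eq ▸ hw))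
      (isClosed_le hρ.continuous continuous_const) hz.1
  have z2 : 0 ≤ B N (z - a) (z - a) - 1 - r z := by
    have := hz.2
    rw [ho.interior_eq, hΩ] at this
    exact not_lt.1 this
  have m := hb z z1
  refine ⟨fun h => ?_, fun v hv _ _ => ?_⟩
  · have := congrArg (fun L => L (z - a)) h
    simp only [e1, sub_apply, add_apply,
      ContinuousLinearMap.flip_apply, zero_apply] at this
    have l := (le_abs_self _).trans (((fderiv ℝ r z).le_opNorm (z - a)).trans
      (mul_le_mul_of_nonneg_right (h2 z m) (norm_nonneg _)))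
    nlinarith [B_ge (z - a), h0 z]
  · have k : ∀ v : Fin N → ℂ, v ≠ 0 → 0 < (B N + (B N).flip - fderiv ℝ (fderiv ℝ r) z) v v :=
      fun v hv => by
        simp only [sub_apply, add_apply,
          ContinuousLinearMap.flip_apply]
        have l := (le_abs_self _).trans ((fderiv ℝ (fderiv ℝ r) z).le_opNorm₂ v v)
        have := norm_pos_iff.2 hv
        nlinarith [B_ge v, mul_le_mul_of_nonneg_right (h3 z m) (mul_pos this this).le,
          mul_pos this this]
    rw [e2]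
    exact add_pos (k v hv) (k _ (smul_ne_zero Complex.I_ne_zero hv))

lemma small (a : Fin N → ℂ) {r : (Fin N → ℂ) → ℝ} (hr : ContDiff ℝ ∞ r) {C : ℝ}
    (h1 : ∀ z, r z ≤ C) : ∃ ε : ℝ, 0 < ε ∧ (∀ z, ε ^ 2 * r z ≤ 1) ∧
      (∀ z ∈ closedBall a 2, ‖fderiv ℝ (fun z => ε ^ 2 * r z) z‖ ≤ 1) ∧
      ∀ z ∈ closedBall a 2, ‖fderiv ℝ (fderiv ℝ fun z => ε ^ 2 * r z) z‖ ≤ 1 := by
  have hd := hr.differentiable (by simp)
  have hr2 : ContDiff ℝ 1 (fderiv ℝ r) := hr.fderiv_right two_le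
  obtain ⟨C1, hC1⟩ := (isCompact_closedBall a 2).exists_bound_of_continuousOn
    hr2.continuous.continuousOn
  obtain ⟨C2, hC2⟩ := (isCompact_closedBall a 2).exists_bound_of_continuousOn
    (hr2.continuous_fderiv (by simp)).continuousOn
  obtain ⟨M, hM⟩ : ∃ M, M = 1 + |C| + |C1| + |C2| := ⟨_, rfl⟩
  have M0 : 0 < M := by rw [hM]; positivity
  have k : ∀ x, x ≤ M → M⁻¹ ^ 2 * x ≤ 1 := fun x hx => by
    have : 1 ≤ M := by rw [hM]; linarith [abs_nonneg C, abs_nonneg C1, abs_nonneg C2]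
    rw [inv_pow, inv_mul_le_iff₀ (by positivity)]
    nlinarith
  have e : fderiv ℝ (fun z => M⁻¹ ^ 2 * r z) = fun z => M⁻¹ ^ 2 • fderiv ℝ r z :=
    funext fun z => fderiv_const_mul (hd z) _
  refine ⟨M⁻¹, by positivity, fun z => k _ ?_, fun z hz => ?_, fun z hz => ?_⟩
  · linarith [h1 z, le_abs_self C, abs_nonneg C1, abs_nonneg C2]
  · rw [e, norm_smul, Real.norm_of_nonneg (by positivity)]
    exact k _ (by linarith [hC1 z hz, le_abs_self C1, abs_nonneg C, abs_nonneg C2])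
  · rw [e, fderiv_fun_const_smul (hr2.differentiable (by simp) z)]
    refine (ContinuousLinearMap.opNorm_smul_le _ _).trans ?_
    rw [Real.norm_of_nonneg (by positivity)]
    exact k _ (by linarith [hC2 z hz, le_abs_self C2, abs_nonneg C, abs_nonneg C1])

end dom

end Pool.Agent.H.MP_420470_an
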